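import Pool.Agent.T9h20.TA.Spec

/-!
# The area formula in one dimension (piece A)
-/

set_option autoImplicit false

namespace Pool.Agent.T9h71.TA

open MeasureTheory Set Filter Topology Pool.Agent.T9h20.TA
open scoped ENNReal NNReal

/-- the index of the dyadic interval -/
noncomputable def fl (n : ℕ) (y : ℝ) : ℤ := ⌊y * 2 ^ n⌋

theorem fl_meas (n : ℕ) : Measurable (fl n) :=
  Int.measurable_floor.comp (measurable_id.mul_const _)

theorem enc_sum (J : Set ℤ) :
    ((J.encard : ℕ∞) : ℝ≥0∞) = ∑' j, J.indicator (fun _ => (1 : ℝ≥0∞)) j := by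
  rw [← ENNReal.tsum_set_one, tsum_subtype J fun _ => (1 : ℝ≥0∞)]

theorem enat_le {a : ℕ∞} {L : ℝ≥0∞} (h : ∀ k : ℕ, (k : ℕ∞) ≤ a → (k : ℝ≥0∞) ≤ L) :
    (a : ℝ≥0∞) ≤ L := by
  cases a with
  | top =>
    have h1 : ∀ k : ℕ, (k : ℝ≥0∞) ≤ L := fun k => h k le_top
    have h2 : (⊤ : ℝ≥0∞) ≤ L := by
      rw [← ENNReal.iSup_natCast]
      exact iSup_le h1
    exact le_top.trans h2
  | coe k => simpa using h k le_rfl

theorem fl_ne {y y' : ℝ} (h : y ≠ y') : ∀ᶠ n : ℕ in atTop, fl n y ≠ fl n y' := by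
  have h1 : 0 < |y - y'| := abs_pos.2 (sub_ne_zero.2 h)
  have h2 : Tendsto (fun n : ℕ => |y - y'| * (2 : ℝ) ^ n) atTop atTop :=
    (tendsto_pow_atTop_atTop_of_one_lt (by norm_num)).const_mul_atTop h1
  filter_upwards [h2.eventually_gt_atTop 1] with n hn heq
  have h3 := Int.abs_sub_lt_one_of_floor_eq_floor heq
  rw [← sub_mul, abs_mul, abs_of_pos (by positivity : (0 : ℝ) < 2 ^ n)] at h3
  linarith

theorem sep (Z : Set ℝ) (k : ℕ) (hk : (k : ℕ∞) ≤ Z.encard) :
    ∀ᶠ n in atTop, (k : ℕ∞) ≤ (fl n '' Z).encard := by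
  obtain ⟨T, hT, hTk⟩ := exists_subset_encard_eq hk
  have hfin : T.Finite := finite_of_encard_eq_coe hTk
  have h1 : ∀ᶠ n in atTop, ∀ y ∈ T, ∀ y' ∈ T, y ≠ y' → fl n y ≠ fl n y' := by
    rw [eventually_all_finite hfin]
    intro y _
    rw [eventually_all_finite hfin]
    intro y' _
    by_cases h : y = y'
    · simp [h]
    · filter_upwards [fl_ne h] with n hn _
      exact hn
  filter_upwards [h1] with n hn
  have h2 : InjOn (fl n) T := fun y hy y' hy' he => by_contra fun h => hn y hy y' hy' h he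
  rw [← hTk, ← h2.encard_image]
  exact encard_le_encard (image_mono hT)

/-- PIECE (A) -/
theorem sArea : SArea := by
  intro h h' S hS hd
  obtain ⟨D, hD⟩ : ∃ D : ℕ → ℤ → Set ℝ, ∀ n j, D n j = S ∩ fl n ⁻¹' {j} := ⟨_, fun _ _ => rfl⟩
  have hDm : ∀ n j, MeasurableSet (D n j) := by
    intro n j
    rw [hD]
    exact hS.inter (fl_meas n (measurableSet_singleton j))
  obtain ⟨A, hA⟩ : ∃ A : ℕ → ℤ → Set ℝ, ∀ n j, A n j = toMeasurable volume (h '' D n j) :=
    ⟨_, fun _ _ => rfl⟩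
  have hAm : ∀ n j, MeasurableSet (A n j) := by
    intro n j
    rw [hA]
    exact measurableSet_toMeasurable _ _
  have hAv : ∀ n j, volume (A n j) ≤ ∫⁻ y in D n j, ‖h' y‖ₑ := by
    intro n j
    rw [hA, measure_toMeasurable]
    have h1 := addHaar_image_le_lintegral_abs_det_fderiv volume (hDm n j)
      (f := h) (f' := fun y => ContinuousLinearMap.toSpanSingleton ℝ (h' y))
      (fun y hy => by
        rw [hD] at hy
        exact (hd y hy.1).hasFDerivAt.hasFDerivWithinAt)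
    refine h1.trans (le_of_eq ?_)
    refine lintegral_congr fun y => ?_
    rw [ContinuousLinearMap.det_toSpanSingleton, Real.enorm_eq_ofReal_abs]
  obtain ⟨N, hN⟩ : ∃ N : ℕ → ℝ → ℝ≥0∞, ∀ n x, N n x =
      ∑' j, (A n j).indicator (fun _ => (1 : ℝ≥0∞)) x := ⟨_, fun _ _ => rfl⟩
  have hNm : ∀ n, Measurable (N n) := by
    intro n
    have : N n = fun x => ∑' j, (A n j).indicator (fun _ => (1 : ℝ≥0∞)) x := funext (hN n)
    rw [this]
    exact Measurable.tsum fun j => measurable_const.indicator (hAm n j)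
  have hNi : ∀ n, ∫⁻ x, N n x ≤ ∫⁻ y in S, ‖h' y‖ₑ := by
    intro n
    have hSu : S = ⋃ j, D n j := by
      ext y
      simp only [hD, mem_iUnion, mem_inter_iff, mem_preimage, mem_singleton_iff]
      exact ⟨fun hy => ⟨fl n y, hy, rfl⟩, fun ⟨_, hy, _⟩ => hy⟩
    have hdis : Pairwise (Function.onFun Disjoint (D n)) := by
      intro i j hij
      rw [Function.onFun, Set.disjoint_left]
      intro y hy hy'
      rw [hD] at hy hy'
      exact hij (hy.2.symm.trans hy'.2)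
    calc ∫⁻ x, N n x = ∑' j, ∫⁻ x, (A n j).indicator (fun _ => (1 : ℝ≥0∞)) x := by
          simp only [hN]
          exact lintegral_tsum fun j => (measurable_const.indicator (hAm n j)).aemeasurable
      _ = ∑' j, volume (A n j) := by
          congr 1
          funext j
          exact lintegral_indicator_one (hAm n j)
      _ ≤ ∑' j, ∫⁻ y in D n j, ‖h' y‖ₑ := ENNReal.tsum_le_tsum (hAv n)
      _ = ∫⁻ y in ⋃ j, D n j, ‖h' y‖ₑ := (lintegral_iUnion (hDm n) hdis _).symm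
      _ = ∫⁻ y in S, ‖h' y‖ₑ := by rw [← hSu]
  have hpt : ∀ x : ℝ, (({y | y ∈ S ∧ h y = x}.encard : ℕ∞) : ℝ≥0∞) ≤
      liminf (fun n => N n x) atTop := by
    intro x
    refine enat_le fun k hk => ?_
    refine le_liminf_of_le (by isBoundedDefault) ?_
    filter_upwards [sep _ k hk] with n hn
    have h1 : ((k : ℕ∞) : ℝ≥0∞) ≤ (((fl n '' {y | y ∈ S ∧ h y = x}).encard : ℕ∞) : ℝ≥0∞) :=
      ENat.toENNReal_le.2 hn
    rw [ENat.toENNReal_coe] at h1
    refine h1.trans ?_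
    rw [enc_sum, hN]
    refine ENNReal.tsum_le_tsum fun j => ?_
    by_cases hj : j ∈ fl n '' {y | y ∈ S ∧ h y = x}
    · have hx : x ∈ A n j := by
        rw [hA]
        refine subset_toMeasurable _ _ ?_
        obtain ⟨y, ⟨hy1, hy2⟩, hy3⟩ := hj
        refine ⟨y, ?_, hy2⟩
        rw [hD]
        exact ⟨hy1, hy3⟩
      rw [indicator_of_mem hj, indicator_of_mem hx]
    · rw [indicator_of_notMem hj]
      exact zero_le
  calc ∫⁻ x : ℝ, (({y | y ∈ S ∧ h y = x}.encard : ℕ∞) : ℝ≥0∞)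
      ≤ ∫⁻ x : ℝ, liminf (fun n => N n x) atTop := lintegral_mono hpt
    _ ≤ liminf (fun n => ∫⁻ x, N n x) atTop := lintegral_liminf_le hNm
    _ ≤ ∫⁻ y in S, ‖h' y‖ₑ := by
        refine liminf_le_of_le (by isBoundedDefault) fun b hb => ?_
        obtain ⟨n, hn⟩ := hb.exists
        exact hn.trans (hNi n)

end Pool.Agent.T9h71.TA
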